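import Mathlib
import Pool.Agent.H317.GR.StmA

/-!
# Project GR, A7: a compatible family of surjections to the congruence quotients

`lim : S_SRJ → S_LIM`.
-/

set_option autoImplicit false

namespace Pool.Agent.H115.GR

open Matrix Module Pool.Agent.H317.GR CategoryTheory

/-- the reduction `SL_n(ℤ/m') → SL_n(ℤ/m)` -/
def red (n : ℕ) {m m' : ℕ} (h : m ∣ m') :
    SpecialLinearGroup (Fin n) (ZMod m') →* SpecialLinearGroup (Fin n) (ZMod m) :=
  SpecialLinearGroup.map (ZMod.castHom h (ZMod m))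

lemma red_red (n : ℕ) {m m' m'' : ℕ} (h : m ∣ m') (h' : m' ∣ m'')
    (A : SpecialLinearGroup (Fin n) (ZMod m'')) :
    red n h (red n h' A) = red n (h.trans h') A := by
  apply Subtype.ext
  ext i j
  change ZMod.castHom h (ZMod m) (ZMod.castHom h' (ZMod m') (A.val i j)) =
    ZMod.castHom (h.trans h') (ZMod m) (A.val i j)
  rw [← ZMod.castHom_comp h h']
  rfl

lemma red_self (n m : ℕ) (A : SpecialLinearGroup (Fin n) (ZMod m)) :
    red n (dvd_refl m) A = A := by
  apply Subtype.ext
  ext i j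
  change ZMod.castHom dvd_rfl (ZMod m) (A.val i j) = A.val i j
  rw [ZMod.castHom_self]
  rfl

lemma red_surj (hS : S_SRJ) (n : ℕ) {m m' : ℕ} (h : m ∣ m') (hm : 0 < m) :
    Function.Surjective (red n h) := by
  intro A
  obtain ⟨B, hB⟩ := hS n m hm A
  refine ⟨SpecialLinearGroup.map (Int.castRingHom (ZMod m')) B, ?_⟩
  rw [← hB]
  apply Subtype.ext
  ext i j
  change ZMod.castHom h (ZMod m) ((B.val i j : ℤ) : ZMod m') = ((B.val i j : ℤ) : ZMod m)
  exact map_intCast _ _

/-- finitely many homomorphisms from a finitely generated group to a finite group -/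
lemma finite_hom (G Q : Type) [Group G] [Group.FG G] [Group Q] [Finite Q] : Finite (G →* Q) := by
  obtain ⟨S, hS⟩ := (Group.fg_iff (G := G)).mp inferInstance
  have : Finite S := hS.2
  refine Finite.of_injective (fun (φ : G →* Q) (s : S) => φ s.1) ?_
  intro φ ψ h
  apply MonoidHom.eq_of_eqOn_dense hS.1
  intro x hx
  exact congrFun h ⟨x, hx⟩

/-- the surjections to `SL_n(ℤ/k!)` -/
def X (n : ℕ) (Λ : Type) [Group Λ] (k : ℕ) : Type :=
  {f : Λ →* SpecialLinearGroup (Fin n) (ZMod k.factorial) // Function.Surjective f}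

lemma finite_SL (n m : ℕ) (hm : 0 < m) : Finite (SpecialLinearGroup (Fin n) (ZMod m)) := by
  have : NeZero m := ⟨hm.ne'⟩
  have : Finite (Matrix (Fin n) (Fin n) (ZMod m)) := by
    change Finite (Fin n → Fin n → ZMod m)
    infer_instance
  exact Subtype.finite

lemma finite_X (n : ℕ) (Λ : Type) [Group Λ] [Group.FG Λ] (k : ℕ) : Finite (X n Λ k) := by
  have := finite_SL n k.factorial k.factorial_pos
  have := finite_hom Λ (SpecialLinearGroup (Fin n) (ZMod k.factorial))
  exact Subtype.finite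

lemma nonempty_X (hS : S_SRJ) (n : ℕ) (Λ : Type) [Group Λ] (hQ : QLE (SZ n) Λ) (k : ℕ) :
    Nonempty (X n Λ k) := by
  have := finite_SL n k.factorial k.factorial_pos
  obtain ⟨f, hf⟩ := hQ (SpecialLinearGroup (Fin n) (ZMod k.factorial))
    ⟨_, hS n k.factorial k.factorial_pos⟩
  exact ⟨⟨f, hf⟩⟩

/-- the transition maps -/
def tr (hS : S_SRJ) (n : ℕ) (Λ : Type) [Group Λ] {a b : ℕ} (h : a ≤ b) (f : X n Λ b) : X n Λ a :=
  ⟨(red n (Nat.factorial_dvd_factorial h)).comp f.1,
    (red_surj hS n (Nat.factorial_dvd_factorial h) a.factorial_pos).comp f.2⟩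

/-- the inverse system -/
def F (hS : S_SRJ) (n : ℕ) (Λ : Type) [Group Λ] : ℕᵒᵖ ⥤ Type where
  obj k := X n Λ k.unop
  map {a b} h := ↾(tr hS n Λ (leOfHom h.unop))
  map_id a := by
    ext f
    apply Subtype.ext
    apply MonoidHom.ext
    intro g
    exact red_self n _ (f.1 g)
  map_comp {a b c} h h' := by
    ext f
    apply Subtype.ext
    apply MonoidHom.ext
    intro g
    exact (red_red n _ _ (f.1 g)).symm

theorem lim (hS : S_SRJ) : S_LIM := by
  intro n Λ _ _ hQ
  have : ∀ j : ℕᵒᵖ, Finite ((F hS n Λ).obj j) := fun j => finite_X n Λ j.unop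
  have : ∀ j : ℕᵒᵖ, Nonempty ((F hS n Λ).obj j) := fun j => nonempty_X hS n Λ hQ j.unop
  obtain ⟨s, hs⟩ := nonempty_sections_of_finite_inverse_system (F hS n Λ)
  have hc : ∀ (a b : ℕ) (h : a ≤ b) (g : Λ),
      red n (Nat.factorial_dvd_factorial h) ((s (Opposite.op b)).1 g) = (s (Opposite.op a)).1 g := by
    intro a b h g
    have h1 : (F hS n Λ).map (homOfLE h).op (s (Opposite.op b)) = s (Opposite.op a) :=
      hs (homOfLE h).op
    have h2 := congrArg (fun z : X n Λ a => z.1 g) h1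
    exact h2
  refine ⟨fun m => if h : 0 < m then
    (red n (Nat.dvd_factorial h le_rfl)).comp (s (Opposite.op m)).1 else 1, ?_, ?_⟩
  · intro m hm
    beta_reduce
    rw [dif_pos hm]
    exact (red_surj hS n (Nat.dvd_factorial hm le_rfl) hm).comp (s (Opposite.op m)).2
  · intro m m' h hm' g
    have hm : 0 < m := Nat.pos_of_dvd_of_pos h hm'
    beta_reduce
    rw [dif_pos hm, dif_pos hm']
    change red n h (red n (Nat.dvd_factorial hm' le_rfl) ((s (Opposite.op m')).1 g)) =
      red n (Nat.dvd_factorial hm le_rfl) ((s (Opposite.op m)).1 g)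
    rw [← hc m m' (Nat.le_of_dvd hm' h) g, red_red, red_red]

end Pool.Agent.H115.GR
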